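import Pool.Agent.T2h91.KMain

/-!
Lang's conjecture on hyperbolicity and rational points, with exceptional sets: finitely many points
imply hyperbolicity for the Kummer covers `w j ^ e j = F j (t 0 ^ m, …, t n ^ m)` of arbitrary closed
subsets of projective space over a number field, `m` large.

The definitions are in `Pool/Agent/T2h91/KCov.lean` (`Cover`: the data `E`, `F`, `d`, `e` of the
covers `X m`; `Closed`: closed subsets `Z` of `X m` over `k`; `Closed.Finite`: there are only finitely
many points of `X m` over `L` outside `Z`), `Pool/Agent/T2h91/KDefs.lean` (`Brody`, `Picard`, `Alg`:
hyperbolicity of `(X m)_σ` modulo `Z_σ`) and `Pool/Agent/T2h91/KMain.lean` (`NoRat`).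
-/

set_option autoImplicit false

namespace Pool.Agent.Results.MP_f82ddf_nt.KummerCovers

open Pool.Agent.T2h91.KU

/-- Let `k` be a number field, let `Y` be any closed subset of projective `n`-space over `k` (of any
dimension; it may be reducible, singular, and lie in coordinate hyperplanes), given by forms `E i`,
let `F 1, …, F r` be arbitrary forms over `k`, and `e 1, …, e r` positive numbers. There are numbers
`m0` and `A` with the following property. Let `m ≥ m0` be divisible by the `e j`, and let `X = X m` be
the projective variety over `k` with the equations `E i (t 0 ^ m, …, t n ^ m) = 0` and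
`w j ^ e j = F j (t 0 ^ m, …, t n ^ m)` in the weighted projective space with the homogeneous
coordinates `t i` and `w j`. Let `Z` be any closed subset of `X` over `k` (for instance the empty
set).

(1) If `X(L) ∖ Z(L)` is finite for all finite extensions `L` of `k`, then the rational curves in `X`,
over finite extensions of `k`, are contained in `Z`.

(2) For every embedding `σ` of `k` in `ℂ` the following are equivalent: the rational curves in `X`
over finite extensions of `k` are contained in `Z`; all nonconstant entire curves in `X_σ` are
contained in `Z_σ`; all holomorphic maps from the punctured disc to `X_σ`, which are not contained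
in `Z_σ`, extend to the disc; all maps from smooth projective curves of genus `g` to `X_σ`, which are
not contained in `Z_σ`, have degree at most `(A / m) max (2 g - 2) 0`. (The first condition does not
depend on `σ`.)

For the empty set `Z` this says that `X_σ` is hyperbolic for all `σ` if `X(L)` is finite for all `L`;
if `X_σ` is not hyperbolic for some `σ`, then it is not hyperbolic for any `σ` and `X(L)` is infinite
for some finite extension `L` of `k`. -/
theorem result {k : Type} [Field k] [NumberField k] {n r : ℕ} (X : Cover k n r) :
    ∃ m0 A : ℕ, ∀ m, m0 ≤ m → (∀ j, X.e j ∣ m) → ∀ Z : X.Closed m,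
      ((∀ (L : Type) [Field L] [NumberField L] [Algebra k L], Z.Finite L) → Z.NoRat) ∧
      ∀ σ : k →+* ℂ, [Z.NoRat, Z.Brody σ, Z.Picard σ, Z.Alg σ A].TFAE :=
  main X

end Pool.Agent.Results.MP_f82ddf_nt.KummerCovers
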