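import Pool.Agent.T2h91.OFin

/-!
Lang's conjecture on hyperbolicity and rational points, with exceptional sets: finitely many points
imply that entire curves given by linear differential or functional equations are constant or lie in
the exceptional set. This holds for all projective varieties over number fields.

The definitions are in `Pool/Agent/T2h91/Defs.lean` (`base`, `Few`) and in
`Pool/Agent/T2h91/ODefs.lean` (`NoEll`, `TorusIn`, `LinearIn`, `FunctionalIn`).
-/

set_option autoImplicit false

namespace Pool.Agent.Results.MP_f82ddf_nt.LinearEquationCurves

open Pool.Agent.T2h91
open Pool.Agent.W602.GT (IsForm)

/-- Let `k` be a number field, let `X = {F = 0}` be any projective variety over `k` (a closed subset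
of projective space, of any dimension; it may be singular and reducible), and let `Z = {P = 0}` be
any closed subset over `k` (for instance the empty set).

(1) Suppose that `X(L) ∖ Z(L)` is finite for all finite extensions `L` of `k`, or that all nonconstant
entire curves in `X_τ` lie in `Z_τ` for some embedding `τ` of `k` in `ℂ` (`Few F P`). Then the images
of all nonconstant maps, over finite extensions of `k`, from elliptic curves to `X` lie in `Z`
(`NoEll F P`).

(2) For every embedding `σ` of `k` in `ℂ` the following are equivalent:
`NoEll F P`, the condition on elliptic curves over number fields in (1), which does not depend on
`σ`;
`TorusIn`: all nonconstant holomorphic maps from complex tori of dimension one to `X_σ` have their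
image in `Z_σ`;
`LinearIn`: all nonconstant entire curves in `X_σ`, which have meromorphic homogeneous coordinates
satisfying linear differential equations with coefficients in a differential ring of meromorphic
functions of transcendence degree at most one (for instance the rational functions, or `ℂ(e^z)`, or
a field of elliptic functions), lie in `Z_σ`;
`FunctionalIn`: for each nonconstant entire curve `f` in `X_σ`, not contained in `Z_σ`, the
functions `τ` with respect to which `f` is given by linear functional equations (linear combinations
of the `h(τ^k(z))`, with coefficients in a `τ`-invariant field of transcendence degree at most one)
are translations by rational multiples of one number, and multiples of these numbers are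
periods of `f`. -/
theorem result {k : Type} [Field k] [NumberField k] {n : ℕ} {ι ι' : Type}
    (F : ι → MvPolynomial (Fin (n + 1)) k) (hF : ∀ i, IsForm (F i))
    (P : ι' → MvPolynomial (Fin (n + 1)) k) (hP : ∀ j, IsForm (P j)) :
    (Few F P → NoEll F P) ∧
      ∀ σ : k →+* ℂ, [NoEll F P, TorusIn (base σ F) (base σ P), LinearIn (base σ F) (base σ P),
        FunctionalIn (base σ F) (base σ P)].TFAE :=
  ⟨few_noEll hF hP, tfae_main hF hP⟩

end Pool.Agent.Results.MP_f82ddf_nt.LinearEquationCurves
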