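import Pool.Agent.T2h91.Surf

/-!
Lang's conjecture on hyperbolicity and rational points: finitely many points imply hyperbolicity for
smooth projective surfaces of general type with symmetric differentials, for example for those with
a nonconstant rational map to an elliptic curve.
-/

set_option autoImplicit false

open FF LinearAlgebra.Projectivization Pool.Agent.W602.GT Pool.Agent.T2h91
open Pool.Agent.N155 (SmoothSurface AllSubGeneral SymD BoundedDer)
open Pool.Agent.N154.TB (CurveIn)

/-- Let `X = {F = 0}` be a projective variety over the number field `k`, and let `σ` be an embedding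
of `k` in `ℂ` such that the complex variety `X_σ` is a smooth irreducible surface of general type
(with function field `K` and generic point `y`).

Assume (`FewPoints`) that `X` has only finitely many points over every finite extension of `k`, or
that `X_τ` is Brody hyperbolic for some embedding `τ` of `k` in `ℂ`. Then:

(1) All closed subvarieties of positive dimension of `X_σ` are of general type, and every holomorphic
map of bounded derivative from the complex plane to `X_σ` is tangent to all the regular symmetric
differentials of `X_σ`.

(2) `X_σ` is Kobayashi hyperbolic if no direction is annihilated by all the regular symmetric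
differentials of `X_σ` (`Separated`).

The condition in (2) holds, by (3), if `X_σ` has a nonconstant rational map `(a, b)` to an elliptic
curve; by (4), if `X_σ` has a nonzero regular symmetric differential which is a product
`h da(1) ⋯ da(d)` (for example, if `X_σ` has a nonconstant rational map to a curve of positive genus,
or to the projective line with sufficiently many multiple fibres); by (5), if `X_σ` has two regular
1-forms with nonzero exterior product.

So for all these surfaces the implication `X(L)` finite for all `L` ⇒ `X_σ` hyperbolic of the
question holds, and the hyperbolicity of `X_σ` does not depend on the embedding `σ`: if `X_σ` is not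
hyperbolic then no `X_τ` is hyperbolic, and `X(L)` is infinite for some finite extension `L` of
`k`. -/
theorem Pool.Agent.Results.MP_f82ddf_nt.SymmetricDifferentialSurfaces.result {k : Type}
    [Field k] [NumberField k] (σ : k →+* ℂ) {n : ℕ} {ι : Type}
    (F : ι → MvPolynomial (Fin (n + 1)) k) (hF : ∀ i, IsForm (F i)) {K : Type} [Field K]
    [Algebra ℂ K] (y : Fin (n + 1) → K) (hX : SmoothSurface (base σ F) y)
    (hgt : GeneralType ℂ K 2) :
    (FewPoints F → AllSubGeneral (base σ F) ∧
      ∀ f, CurveIn (Cone (base σ F)) f → BoundedDer f → ∀ s : SymD K, 0 < s.d → s.Regular 2 →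
        s.Tangent y f) ∧
    (FewPoints F → Separated K → KobayashiHyp (base σ F)) ∧
    (∀ (a b : K) (g2 g3 : ℂ),
      b ^ 2 = 4 * a ^ 3 - algebraMap ℂ K g2 * a - algebraMap ℂ K g3 → g2 ^ 3 ≠ 27 * g3 ^ 2 →
      Transcendental ℂ a → Separated K) ∧
    (∀ (d : ℕ) (h : K) (a : Fin d → K), 0 < d → h ≠ 0 → (∀ l, Transcendental ℂ (a l)) →
      (⟨d, 1, fun _ => h, fun _ => a⟩ : SymD K).Regular 2 → Separated K) ∧
    ∀ s t : SymD K, s.d = 1 → t.d = 1 → s.Regular 2 → t.Regular 2 →
      (∃ D D' : Derivation ℂ K K, s.app D * t.app D' ≠ s.app D' * t.app D) → Separated K := by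
  refine ⟨fun h => ⟨all_general h σ hF hX hgt, fun f hf hb s hd hs => ?_⟩,
    fun h hs => kob_of_sep h σ hF hX hgt hs, fun a b g2 g3 h1 h2 h3 => sep_of_elliptic h1 h2 h3,
    fun d h a hd hh ha hr => sep_of_prod hd hh ha hr, ?_⟩
  · exact Pool.Agent.N155.tangent_of_bounded hX (all_general h σ hF hX hgt) hf.1 hf.2 hb hd hs
  · rintro s t hs ht hsr htr ⟨D, D', hD⟩
    exact sep_of_forms (by exact_mod_cast hX.sub.dim) hs ht hsr htr hD
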