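import Pool.Agent.T2h91.Abel

/-!
Lang's conjecture on hyperbolicity and rational points: finitely many points outside of an
exceptional set imply hyperbolicity modulo this set, for projective varieties of any dimension with a
map to an abelian variety and positive 2-forms.
-/

set_option autoImplicit false

open FF LinearAlgebra.Projectivization Pool.Agent.W602.GT Pool.Agent.T2h91
open Pool.Agent.N154.TB (BrodyHyp HypFibres TwoForms Zeros)
open Pool.Agent.N154.TT (RiemannForm HolToTorus)
open Pool.Agent.N154.GG (PunctIn Extends PDisc projDist kobayashi)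

/-- Let `X = {F = 0}` be a projective variety over the number field `k`, `σ` an embedding of `k` in
`ℂ`, and `α` a holomorphic map from `X_σ` to an abelian variety `A = ℂᵐ / Λ` (`H` is a Riemann form).
Let `S = {G = 0}` be a closed subset of `X_σ`, such that `X_σ` is a complex manifold of dimension `d`
outside `S` and the 2-forms of `X_σ` are positive outside `S` in the directions of `A` (see
`TwoForms`; for example `X_σ` is smooth, `S` empty, and `Λ² Ω` ample; or `X_σ` is a smooth surface of
general type and `S` is the base locus of the sections of a power of the canonical bundle which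
vanish on a hyperplane section).

(1) Assume that `S` and the fibres of `α` are Brody hyperbolic. Let `Z = {P = 0}` be a closed subset
defined over `k` such that `X` has only finitely many points outside `Z` over every finite extension
of `k`, or such that `X_τ` is Brody hyperbolic modulo `Z_τ` for some embedding `τ` (`Few`). Then
`X_σ` is hyperbolic modulo `Z_σ`: every nonconstant holomorphic map from `ℂ` to `X_σ` has its image in
`Z_σ`; every holomorphic map from the punctured disc to `X_σ` extends to the disc or has its image in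
`Z_σ`; and for each `ε > 0` there is `c > 0` such that the Kobayashi pseudodistance of the points
`p`, `q` of `X_σ` is at least `c D ^ ε min (D, |p - q|)` if `0 ≤ D ≤ 1` and the distance from `p` to
all points of `X_σ ∩ Z_σ` is at least `D`. (If `Z` is empty, take `D = 1`.)

(2) Assume that `X` has only finitely many points over every finite extension of `k`, or that `X_τ`
is Brody hyperbolic for some embedding `τ` (`FewPoints`), and that `S` and all the fibres of `α` are
contained in algebraic sets of dimension at most 1 (their hyperbolicity is not assumed). Then `X_σ`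
is Kobayashi hyperbolic. -/
theorem Pool.Agent.Results.MP_f82ddf_nt.VarietiesOverAbelianVarieties.result {k : Type} [Field k]
    [NumberField k] (σ : k →+* ℂ) {n d m : ℕ} {ι ι' ι'' κ : Type}
    (F : ι → MvPolynomial (Fin (n + 1)) k) (hF : ∀ i, IsForm (F i))
    (G : ι'' → MvPolynomial (Fin (n + 1)) ℂ) (hG : ∀ j, IsForm (G j))
    (Λ : Submodule ℤ (Fin m → ℂ)) [DiscreteTopology Λ] [IsZLattice ℝ Λ]
    (H : (Fin m → ℂ) → (Fin m → ℂ) → ℂ) (hH : RiemannForm Λ H)
    (α : (Fin (n + 1) → ℂ) → (Fin m → ℂ) ⧸ Λ) (hα : HolToTorus (Cone (base σ F)) Λ α) (r : κ → ℕ)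
    (η : κ → (Fin (n + 1) → ℂ) → (Fin (n + 1) → ℂ) → (Fin (n + 1) → ℂ) → ℂ)
    (hη : TwoForms (Cone (base σ F)) (Zeros G) d α r η) :
    (BrodyHyp (Cone (base σ F) ∩ Zeros G) → HypFibres (Cone (base σ F)) α →
      ∀ P : ι' → MvPolynomial (Fin (n + 1)) k, (∀ j, IsForm (P j)) → Few F P →
      BrodyMod (base σ F) (base σ P) ∧
      (∀ f, PunctIn (base σ F) f → Extends (base σ F) f ∨
        ∀ z ∈ PDisc, ∀ j, val (f z).rep (base σ P j) = 0) ∧
      ∀ ε : ℝ, 0 < ε → ∃ c : ℝ, 0 < c ∧ ∀ p q : ℙ ℂ (Fin (n + 1) → ℂ), p.rep ∈ Cone (base σ F) →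
        q.rep ∈ Cone (base σ F) → ∀ D : ℝ, 0 ≤ D → D ≤ 1 →
        (∀ x : ℙ ℂ (Fin (n + 1) → ℂ), x.rep ∈ Cone (base σ F) →
          (∀ j, val x.rep (base σ P j) = 0) → D ≤ projDist p x) →
        ENNReal.ofReal (c * D ^ ε * min D (projDist p q)) ≤ kobayashi (Cone (base σ F)) p q) ∧
    (FewPoints F → DimLeOne (Cone (base σ F) ∩ Zeros G) →
      (∀ a, DimLeOne {x | x ∈ Cone (base σ F) ∧ α x = a}) → KobayashiHyp (base σ F)) :=
  ⟨fun hS hfib _ hP h => abel_main h σ hF hP hG hS hη hH hα hfib,
    fun h hS hfib => abel_dim h σ hF hG hη hH hα hS hfib⟩
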